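import Mathlib
import Pool.Agent.T6.H45.Hol.Fin

/-!
MP_627a61_nt, Q1: sequences of rational points given by nested linear recurrences.
-/

set_option autoImplicit false

namespace Pool.Agent.Results.MP_627a61_nt.NestedRecurrences

open MvPolynomial Filter Pool.Agent.TH143.HE
open scoped LinearAlgebra.Projectivization

variable {K : Type} [Field K] [NumberField K] {N : ℕ}

/-- The nested sequences: the smallest class of sequences in the field `L` which contains the
constant sequences, is closed under eventual equality, sums, products and inverses of eventually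
nonvanishing sequences, and contains the coordinates of the solutions of `y(n+1) = A(n) y(n)` for
all square matrices `A(n)` with entries in the class and `det A(n) ≠ 0` for all large `n`. -/
inductive Nested (L : Type) [Field L] : (ℕ → L) → Prop
  | const (c : L) : Nested L (fun _ => c)
  | congr {f g : ℕ → L} : Nested L f → (∀ᶠ n in atTop, f n = g n) → Nested L g
  | add {f g : ℕ → L} : Nested L f → Nested L g → Nested L (fun n => f n + g n)
  | mul {f g : ℕ → L} : Nested L f → Nested L g → Nested L (fun n => f n * g n)
  | inv {f : ℕ → L} : Nested L f → (∀ᶠ n in atTop, f n ≠ 0) → Nested L (fun n => (f n)⁻¹)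
  | solve {r : ℕ} {A : ℕ → Matrix (Fin r) (Fin r) L} {y : ℕ → Fin r → L} :
      (∀ i j, Nested L (fun n => A n i j)) → (∀ᶠ n in atTop, (A n).det ≠ 0) →
      (∀ᶠ n in atTop, y (n + 1) = (A n).mulVec (y n)) → ∀ i, Nested L (fun n => y n i)

theorem nested_iff {L : Type} [Field L] {f : ℕ → L} :
    Nested L f ↔ Pool.Agent.T6.H45.Hol.Nested L f := by
  constructor
  · intro h
    induction h with
    | const c => exact .const c
    | congr _ h2 ih => exact ih.congr h2
    | add _ _ ih1 ih2 => exact ih1.add ih2
    | mul _ _ ih1 ih2 => exact ih1.mul ih2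
    | inv _ h2 ih => exact ih.inv h2
    | solve _ h2 h3 i ih => exact .solve ih h2 h3 i
  · intro h
    induction h with
    | const c => exact .const c
    | congr _ h2 ih => exact ih.congr h2
    | add _ _ ih1 ih2 => exact ih1.add ih2
    | mul _ _ ih1 ih2 => exact ih1.mul ih2
    | inv _ h2 ih => exact ih.inv h2
    | solve _ h2 h3 i ih => exact .solve ih h2 h3 i

/-- `P`-recursive (holonomic) sequences: `∑ᵢ pᵢ(n) a(n + i) = 0` for all `n`, with polynomials
`p₀, ..., p_r` which are not all zero. -/
def PRecursive (L : Type) [Field L] (a : ℕ → L) : Prop :=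
  ∃ (r : ℕ) (p : ℕ → Polynomial L), (∃ i ≤ r, p i ≠ 0) ∧
    ∀ n : ℕ, ∑ i ∈ Finset.range (r + 1), (p i).eval (n : L) * a (n + i) = 0

/-- `x` is a zero of all forms in `I` (the coefficients are mapped by `σ`). -/
def IsPoint {A L : Type} [CommRing A] [Field L] (σ : A →+* L)
    (I : Ideal (MvPolynomial (Fin (N + 1)) A)) (x : Fin (N + 1) → L) : Prop :=
  ∀ G ∈ I, (∃ d, G.IsHomogeneous d) → eval₂ σ x G = 0

/-- All nonconstant entire curves in `X` lie in `Z`. Here `X` and `Z` are the projective varieties
given by the forms in `I` and in `I'`; the curve is given by entire coordinates without common zero.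
For `I' = ⊤` the variety `Z` is empty, and this is the (Brody, or Kobayashi) hyperbolicity of
`X`. -/
def Hyperbolic (σ : K →+* ℂ) (I I' : Ideal (MvPolynomial (Fin (N + 1)) K)) : Prop :=
  ∀ f : ℂ → Fin (N + 1) → ℂ, (∀ j, Differentiable ℂ (fun z => f z j)) → (∀ z, f z ≠ 0) →
    (∀ z, IsPoint σ I (f z)) → (∃ z w i j, f z i * f w j ≠ f z j * f w i) →
    ∀ z, IsPoint σ I' (f z)

/-- All nonconstant rational curves in `X` lie in `Z`. -/
def RationalCurvesIn (σ : K →+* ℂ) (I I' : Ideal (MvPolynomial (Fin (N + 1)) K)) : Prop :=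
  ∀ p : Fin (N + 1) → Polynomial ℂ, (∀ u, IsPoint σ I (fun j => (p j).eval u)) →
    (∃ i j u v, (p i).eval u * (p j).eval v ≠ (p j).eval u * (p i).eval v) →
    ∀ u, IsPoint σ I' (fun j => (p j).eval u)

/-- The points of the projective variety given by the forms in `I`, with coordinates in `L`. -/
def Pts (L : Type) [Field L] [Algebra K L] (I : Ideal (MvPolynomial (Fin (N + 1)) K)) :
    Set (ℙ L (Fin (N + 1) → L)) :=
  {P | IsPoint (algebraMap K L) I P.rep}

/-- For all extensions `L` of `K` which can be embedded in `ℂ` and all sequences of points of `X(L)`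
with nested coordinates there is a `k > 0` such that, for all large `m`, either the `m`-th point is
equal to the `(m + k)`-th one, or both lie in `Z`. -/
def PeriodicNested (I I' : Ideal (MvPolynomial (Fin (N + 1)) K)) : Prop :=
  ∀ (L : Type) [Field L] [Algebra K L], Nonempty (L →+* ℂ) →
    ∀ (x : ℕ → Fin (N + 1) → L) (hx : ∀ m, x m ≠ 0), (∀ j, Nested L fun m => x m j) →
    (∀ m, Projectivization.mk L (x m) (hx m) ∈ Pts L I) →
    ∃ k m0 : ℕ, 0 < k ∧ ∀ m, m0 ≤ m →
      (Projectivization.mk L (x m) (hx m) ∈ Pts L I' ∧
        Projectivization.mk L (x (m + k)) (hx (m + k)) ∈ Pts L I') ∨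
      Projectivization.mk L (x (m + k)) (hx (m + k)) = Projectivization.mk L (x m) (hx m)

/-- For all number fields `L` which contain `K` and all sequences of points of `X(L)` with nested
coordinates, only finitely many different terms lie outside of `Z`. -/
def FiniteNested (I I' : Ideal (MvPolynomial (Fin (N + 1)) K)) : Prop :=
  ∀ (L : Type) [Field L] [NumberField L] [Algebra K L] (x : ℕ → Fin (N + 1) → L)
    (hx : ∀ m, x m ≠ 0), (∀ j, Nested L fun m => x m j) →
    (∀ m, Projectivization.mk L (x m) (hx m) ∈ Pts L I) →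
    ((Set.range fun m => Projectivization.mk L (x m) (hx m)) \ Pts L I').Finite

theorem isPoint_smul {L : Type} [Field L] [Algebra K L] {I : Ideal (MvPolynomial (Fin (N + 1)) K)}
    {x : Fin (N + 1) → L} (h : IsPoint (algebraMap K L) I x) (a : L) :
    IsPoint (algebraMap K L) I (fun j => a * x j) := by
  rintro G hG ⟨d, hd⟩
  rw [eval₂_smul_homog _ a x hd, h G hG ⟨d, hd⟩, mul_zero]

theorem mem_pts {L : Type} [Field L] [Algebra K L] {I : Ideal (MvPolynomial (Fin (N + 1)) K)}
    {x : Fin (N + 1) → L} (hx : x ≠ 0) :
    Projectivization.mk L x hx ∈ Pts L I ↔ IsPtP (algebraMap K L) I x := by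
  obtain ⟨a, ha⟩ := Projectivization.exists_smul_eq_mk_rep L x hx
  have h1 : (Projectivization.mk L x hx).rep = fun j => (a : L) * x j := by
    rw [← ha]
    rfl
  constructor
  · intro h
    have h2 : IsPoint (algebraMap K L) I (Projectivization.mk L x hx).rep := h
    rw [h1] at h2
    have h3 := isPoint_smul h2 (a : L)⁻¹
    have h4 : (fun j => (a : L)⁻¹ * ((a : L) * x j)) = x := by
      funext j
      rw [inv_mul_cancel_left₀ a.ne_zero]
    rwa [h4] at h3
  · intro h
    change IsPoint (algebraMap K L) I (Projectivization.mk L x hx).rep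
    rw [h1]
    exact isPoint_smul h _

theorem mk_eq {L : Type} [Field L] {x y : Fin (N + 1) → L} (hx : x ≠ 0) (hy : y ≠ 0)
    (h : ∀ i j, x i * y j = x j * y i) :
    Projectivization.mk L x hx = Projectivization.mk L y hy := by
  obtain ⟨k, hk⟩ := Function.ne_iff.1 hy
  have hk' : y k ≠ 0 := hk
  have h1 : x = (x k / y k) • y := by
    funext i
    rw [Pi.smul_apply, smul_eq_mul, div_mul_eq_mul_div, eq_div_iff hk']
    exact h i k
  rw [Projectivization.mk_eq_mk_iff']
  exact ⟨x k / y k, h1.symm⟩

theorem rationalCurvesIn_iff {σ : K →+* ℂ} {I I' : Ideal (MvPolynomial (Fin (N + 1)) K)} :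
    RationalCurvesIn σ I I' ↔ RatCurvesIn σ I I' := by
  constructor
  · intro h p hp hnc u
    obtain ⟨i, j, u', v', hne⟩ := hnc
    exact h p hp ⟨i, j, u', v', hne⟩ u
  · intro h p hp hnc u
    obtain ⟨i, j, u', v', hne⟩ := hnc
    exact h p hp ⟨i, j, u', v', hne⟩ u

/-- Let `K` be a number field, embedded in `ℂ` by `σ`, let `X` and `Z` be the projective varieties
over `K` given by the forms in `I` and `I'`. The following are equivalent: all rational curves in
`X` lie in `Z`; for all sequences of points of `X`, over any field `L` between `K` and `ℂ`, with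
nested coordinates there is a `k > 0` such that for all large `m` the `m`-th point is equal to the
`(m + k)`-th one, or both lie in `Z`; for all these sequences over number fields, only finitely many
different terms lie outside of `Z`.

In particular, if `X` is hyperbolic (`I' = ⊤`), then all sequences of points of `X(L)` with nested
coordinates are eventually periodic. All P-recursive sequences are nested. -/
theorem result :
    (∀ (σ : K →+* ℂ) (I I' : Ideal (MvPolynomial (Fin (N + 1)) K)),
      [RationalCurvesIn σ I I', PeriodicNested I I', FiniteNested I I'].TFAE ∧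
      (Hyperbolic σ I I' → PeriodicNested I I')) ∧
    (∀ (L : Type) [Field L] [CharZero L] (a : ℕ → L), PRecursive L a → Nested L a) := by
  classical
  refine ⟨fun σ I I' => ?_, fun L _ _ a h => nested_iff.2 (Pool.Agent.T6.H45.Hol.PRec.nested h)⟩
  have h12 : RationalCurvesIn σ I I' → PeriodicNested I I' := by
    intro h L _ _ ⟨τ⟩ x hx hrec hpts
    rw [rationalCurvesIn_iff] at h
    obtain ⟨k, m0, hk, hper⟩ := Pool.Agent.T6.H45.Hol.nested_periodic (algebraMap K L) τ I I'
      (Pool.Agent.T6.H45.Hol.ratCurvesIn_any σ _ h) x hx (fun j => nested_iff.1 (hrec j))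
      (Eventually.of_forall fun m => (mem_pts (hx m)).1 (hpts m))
    refine ⟨k, m0, hk, fun m hm => ?_⟩
    rcases hper m hm with h1 | h1
    · exact Or.inl ⟨(mem_pts (hx m)).2 h1.1, (mem_pts (hx (m + k))).2 h1.2⟩
    · exact Or.inr (mk_eq _ _ h1)
  have h23 : PeriodicNested I I' → FiniteNested I I' := by
    intro h L _ _ _ x hx hrec hpts
    obtain ⟨k, m0, hk, hper⟩ := h L ⟨(IsAlgClosed.lift : L →ₐ[ℚ] ℂ).toRingHom⟩ x hx hrec hpts
    refine ((Set.finite_lt_nat (m0 + k)).image
      fun m => Projectivization.mk L (x m) (hx m)).subset ?_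
    rintro _ ⟨⟨m, rfl⟩, hm⟩
    induction m using Nat.strong_induction_on with
    | _ m ih =>
      rcases Nat.lt_or_ge m (m0 + k) with h1 | h1
      · exact ⟨m, h1, rfl⟩
      · have h3 : m - k + k = m := by omega
        have h5 : Projectivization.mk L (x (m - k + k)) (hx (m - k + k)) =
            Projectivization.mk L (x m) (hx m) := by
          congr 1
          rw [h3]
        rcases hper (m - k) (by omega) with h2 | h2
        · rw [h5] at h2
          exact absurd h2.2 hm
        · have h4 : Projectivization.mk L (x m) (hx m) =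
              Projectivization.mk L (x (m - k)) (hx (m - k)) := by
            rw [← h2, h5]
          simp only at ih hm ⊢
          rw [h4] at hm ⊢
          exact ih (m - k) (by omega) hm
  have h31 : FiniteNested I I' → RationalCurvesIn σ I I' := by
    intro h
    rw [rationalCurvesIn_iff, ratCurvesIn_iff]
    intro p hp
    let _ : Algebra K ℂ := σ.toAlgebra
    have hp1 : RCur ((algebraMap K ℂ).comp (RingHom.id K)) I I' p := hp
    obtain ⟨L, _, _, _, p', hp'⟩ := RCur.spec (k := K) (E := ℂ) (RingHom.id K) hp1
    have hchar : CharZero L := charZero_of_injective_algebraMap (algebraMap K L).injective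
    have hfin : FiniteDimensional ℚ L := FiniteDimensional.trans ℚ K L
    have hnf : NumberField L := ⟨⟩
    rw [RingHom.comp_id] at hp'
    obtain ⟨x, h1, h2, h3, h4, h5⟩ := exists_seq_rat (algebraMap K L) hp'
    have h6 := h L x h1 (fun j => nested_iff.2 (Pool.Agent.T6.H45.Hol.PRec.nested (h4 j)))
      (fun m => (mem_pts (h1 m)).2 (h2 m))
    have h6' : ((Set.range fun m => Projectivization.mk L (x m) (h1 m)) \ Pts L I') =
        Set.range fun m => Projectivization.mk L (x m) (h1 m) := by
      ext P
      constructor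
      · exact fun hP => hP.1
      · rintro ⟨m, rfl⟩
        exact ⟨⟨m, rfl⟩, fun hc => h3 m ((mem_pts (h1 m)).1 hc)⟩
    rw [h6'] at h6
    have h7 := h6.preimage' (f := fun m => Projectivization.mk L (x m) (h1 m)) fun P _ => by
      refine (h5 P.rep P.rep_nonzero).subset fun m hm i j => ?_
      have h8 : Projectivization.mk L (x m) (h1 m) = P := hm
      rw [← h8]
      obtain ⟨a, ha⟩ := Projectivization.exists_smul_eq_mk_rep L (x m) (h1 m)
      rw [← ha]
      change x m i * ((a : L) * x m j) = x m j * ((a : L) * x m i)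
      ring
    rw [Set.preimage_range] at h7
    exact Set.infinite_univ h7
  refine ⟨?_, fun h => h12 (rationalCurvesIn_iff.2 (rat_of_pentire fun f hf hne _ h1 h2 =>
    h f hf hne h1 h2))⟩
  tfae_have 1 → 2 := h12
  tfae_have 2 → 3 := h23
  tfae_have 3 → 1 := h31
  tfae_finish

end Pool.Agent.Results.MP_627a61_nt.NestedRecurrences
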