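import Mathlib
import Pool.Agent.T6.H54.PM.Equiv

set_option autoImplicit false

/-!
# Chains of points which are periodic modulo primes on hyperbolic varieties

Let `K` be a number field, `S` a set of primes and `δ > 0` such that
`∑_{p ∈ S, p ≤ n} log p ≥ δ n` for all `n ≥ n₀` (for the set of all primes every `δ < 1` is possible),
and `c = (δ / 16) ^ 3`. We consider chains `P 0, P 1, …, P T` of `K`-rational points of projective
space such that `P (n + p)` and `P n` are congruent modulo `p` for all `p ∈ S`, `p₀ ≤ p`, and such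
that the absolute logarithmic height of `P n` is at most `c n + C₀` (`Chain`).

(The values `f (0), …, f (T)` of a polynomial curve have these properties. If Lang's conjecture is
true, then the terms of an infinite sequence `P n` of points of a hyperbolic variety `X` over `k ⊆ K`
with these congruences form a finite set, and it follows that the sequence is constant. This is what
is proved here, under the condition on the growth, also for finite chains, and uniformly in `X`.)

(1) A closed subset `X` of projective space over a number field, such that the space of complex points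
of `X` is Brody (equivalently, Kobayashi) hyperbolic for one embedding, contains no rational curves.

(2) There is a number `T₀`, which depends only on `K`, `S`, `δ`, `n₀`, `p₀`, `C₀`, the dimension `N` of
the projective space and `d`, such that for ALL closed subsets `X` given by forms of degree at most
`d` over number fields `k ⊆ K` which contain no rational curves, all chains of length `T ≥ T₀` of
points of `X (K)` are constant.

(3) In general there are a number `T₀` and a finite set `𝓕` of polynomial curves (given by vectors of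
polynomials over `𝓞 K` without common zeros) such that every chain of length `T ≥ T₀` of points of
`ℙ^N (K)` is of the form `F (0), F (1), …, F (T)` with `F ∈ 𝓕`.

(4) A closed subset `X` over `k` contains no rational curve over the algebraic closure if and only if
for all `K ⊇ k` and all data as above there is `T₀` such that all chains of length `T ≥ T₀` of points
of `X (K)` are constant.

Method for (3): Siegel's lemma gives a polynomial relation with coefficients polynomials in `n`
between two coordinates for small `n`; the congruences propagate it to all `n`. Hilbert irreducibility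
along progressions and the congruences again show that the coordinates are polynomials. The finite
version follows by a compactness argument.
-/

namespace Pool.Agent.Results.MP_627a61_nt.PeriodicModuloPrimes

open NumberField Polynomial Pool.Agent.T6.H54.PM Pool.Agent.TH409.SH Pool.Agent.H458.Sp

theorem result :
    -- (1)
    (∀ (k : Type) [Field k] [NumberField k] (σ : k →+* ℂ) (N : ℕ)
      (FF : Set (MvPolynomial (Fin (N + 1)) (𝓞 k))), (∀ G ∈ FF, ∃ e, G.IsHomogeneous e) →
      BrodyHyperbolic ((MvPolynomial.map (σ.comp (algebraMap (𝓞 k) k))) '' FF) →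
      NoRatCurve FF) ∧
    -- (2)
    (∀ (K : Type) [Field K] [NumberField K] (S : Set ℕ), (∀ p ∈ S, p.Prime) →
      ∀ δ : ℝ, 0 < δ → ∀ n₀ : ℕ, (∀ n : ℕ, n₀ ≤ n → δ * n ≤ wt S n) →
      ∀ (p₀ : ℕ) (C₀ : ℝ) (N d : ℕ), ∃ T₀ : ℕ,
        ∀ (k : Type) [Field k] [NumberField k] [Algebra k K]
          (FF : Set (MvPolynomial (Fin (N + 1)) (𝓞 k))), (∀ G ∈ FF, ∃ e ≤ d, G.IsHomogeneous e) →
          NoRatCurve FF → ∀ T ≥ T₀, ∀ P : ℕ → Fin (N + 1) → K,
            Chain S p₀ ((δ / 16) ^ 3) C₀ T P → (∀ n ≤ T, IsZero FF (P n)) →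
            ∀ n ≤ T, Same (P n) (P 0)) ∧
    -- (3)
    (∀ (K : Type) [Field K] [NumberField K] (S : Set ℕ), (∀ p ∈ S, p.Prime) →
      ∀ δ : ℝ, 0 < δ → ∀ n₀ : ℕ, (∀ n : ℕ, n₀ ≤ n → δ * n ≤ wt S n) →
      ∀ (p₀ : ℕ) (C₀ : ℝ) (N : ℕ), ∃ 𝓕 : Set (Fin (N + 1) → (𝓞 K)[X]), 𝓕.Finite ∧
        (∀ F ∈ 𝓕, ∃ u : Fin (N + 1) → K[X], ∑ j, u j * (F j).map (algebraMap (𝓞 K) K) = 1) ∧
        ∃ T₀ : ℕ, ∀ T ≥ T₀, ∀ P : ℕ → Fin (N + 1) → K, Chain S p₀ ((δ / 16) ^ 3) C₀ T P →
          ∃ F ∈ 𝓕, ∀ n ≤ T, Same (P n) (fun j => (((F j).eval (n : 𝓞 K) : 𝓞 K) : K))) ∧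
    -- (4)
    (∀ (k : Type) [Field k] [NumberField k] (N d : ℕ)
      (FF : Set (MvPolynomial (Fin (N + 1)) (𝓞 k))), (∀ G ∈ FF, ∃ e ≤ d, G.IsHomogeneous e) →
      (NoRatCurve FF ↔ ∀ (K : Type) [Field K] [NumberField K] [Algebra k K] (S : Set ℕ),
        (∀ p ∈ S, p.Prime) → ∀ δ : ℝ, 0 < δ → ∀ n₀ : ℕ, (∀ n : ℕ, n₀ ≤ n → δ * n ≤ wt S n) →
        ∀ (p₀ : ℕ) (C₀ : ℝ), ∃ T₀ : ℕ, ∀ T ≥ T₀, ∀ P : ℕ → Fin (N + 1) → K,
          Chain S p₀ ((δ / 16) ^ 3) C₀ T P → (∀ n ≤ T, IsZero FF (P n)) →
          ∀ n ≤ T, Same (P n) (P 0))) :=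
  ⟨fun _ _ _ σ _ FF hFF hyp => brody_noRat σ FF hFF hyp,
    fun K _ _ _ hS _ hδ _ hwt p₀ C₀ N d => hyp_uniform hS hδ hwt p₀ C₀ K N d,
    fun K _ _ _ hS _ hδ _ hwt p₀ C₀ N => finite_chains hS hδ hwt p₀ C₀ K N,
    fun k _ _ _ d FF hFF => noRat_iff k FF d hFF⟩

end Pool.Agent.Results.MP_627a61_nt.PeriodicModuloPrimes
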