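import Mathlib
import Pool.Agent.T6.H20.MN.Cover

/-!
# Rational points on hypersurfaces which are sums of few high powers of monomials or forms, and on
# their hyperbolic closed subvarieties

For all `n`, `m`, `l`, `E` and `ε > 0` there are `R` and `δ > 0` such that for every `Y ≥ 1`, every
`d` with `R ≤ d ≤ Y ^ δ`, and all integers `u 1, …, u m` of absolute value at most `exp (Y ^ δ)` the
following holds. Let `F 1, …, F m` be forms of degree `l` in `n` variables with integer coefficients
of absolute value at most `Y ^ E`, and let `X s` be the hypersurface `∑ u i * s i * F i ^ d = 0` of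
`P ^ (n - 1)`, of degree `l d`, where the `s i` are integers with `0 < |s i| ≤ Y ^ E`.

* There are at most `Y ^ ε` closed subvarieties `W`, each given by some equations `F i = 0` and
  `F i = c (i, i') F i'` with rational numbers `c (i, i')`, such that every rational point of height at
  most `Y` on any `X s` lies on one of them that is contained in `X s` (as a set of rational points).
* If the `F i` are monomials, then all `X s` that are Brody (equivalently, Kobayashi) hyperbolic
  together have at most `Y ^ ε` rational points of height at most `Y`. Masuda and Noguchi have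
  constructed hyperbolic hypersurfaces of this type (sums of `d`-th powers of monomials, for all
  large `d`) of all dimensions.
* Let the `F i` be monomials and let `Z` be a closed subvariety of `P ^ (n - 1)`, given by forms of
  degree at most `e`. Then at most `(e + 1) Y ^ ε` rational points of `Z`, of height at most `Y`, are
  on those `X s` for which the variety `Z ∩ X s` is hyperbolic and `X s` contains no two-dimensional
  orbit, of a rational point, under a subtorus of the torus `𝔾ₘ ^ n / 𝔾ₘ`. (The degree of `Z`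
  is arbitrary and every closed subvariety of `X s` is of the form `Z ∩ X s`. If `X s` is hyperbolic
  then it contains no orbits of positive dimension. For instance let `X s` be the Fermat type
  threefold `∑ u i * s i * x i ^ d = 0` in `P ^ 4`; the bound holds for all hyperbolic surfaces and
  curves on it. If `Z` is a linear subspace then `Z ∩ X s` is a sum of powers of products of linear
  forms.)

Method: by the theorem behind `SumsOfPowers` (`Pool.Agent.Y902.GN.covk`, applied to the points with
coordinates `F i (x)`) there are at most `Y ^ ε` possibilities for the partition of the nonzero terms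
in minimal vanishing sums and for the ratios of the `F i (x)` in the parts. The points which have
the same data and signs are in the orbit of one of them, `x`, under the real points of a torus whose
orbit of `x` is in `X s`. If the orbit of `x` is a point we are done. If it is a curve `t ^ w x` then
it is not contained in the hyperbolic variety `Z ∩ X s`, since it is the image of an entire curve, so
it meets `Z` in at most `e C` points, where the weights `w` can be chosen at most `C = C (n, m, l)`.
-/

set_option autoImplicit false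

namespace Pool.Agent.Results.MP_627a61_nt.PowersOfMonomials

open MvPolynomial

/-- the form `∑ a i * F i ^ d` at a point with coordinates in any ring -/
noncomputable def form {R : Type} [CommRing R] {n m : ℕ} (a : Fin m → ℤ)
    (F : Fin m → MvPolynomial (Fin n) ℤ) (d : ℕ) (x : Fin n → R) : R :=
  ∑ i, (a i : R) * (aeval x (F i)) ^ d

/-- The closed subset of projective space given by the form `∑ a i * F i ^ d` and by the forms in
`G` is Brody hyperbolic: every holomorphic map from `ℂ` to it is constant (such a map is given by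
holomorphic homogeneous coordinates without common zeros). -/
def BrodyHyperbolic {n m : ℕ} (a : Fin m → ℤ) (F : Fin m → MvPolynomial (Fin n) ℤ) (d : ℕ)
    (G : Set (MvPolynomial (Fin n) ℤ)) : Prop :=
  ∀ f : ℂ → Fin n → ℂ, (∀ j, Differentiable ℂ fun z => f z j) → (∀ z, f z ≠ 0) →
    (∀ z, form a F d (f z) = 0) → (∀ z, ∀ g ∈ G, aeval (f z) g = 0) → ∀ z w, ∃ c : ℂ, f z = c • f w

/-- If the hypersurface `∑ a i * F i ^ d = 0` contains the orbit `(t ^ (w j) * t' ^ (w' j) * x j)`,
`t = exp b`, `t' = exp b'`, of a rational point `x`, then the dimension of this orbit in projective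
space is at most one: some combination of the weights `w` and `w'` is constant on the set of the
nonzero coordinates of `x`. -/
def NoTorusSurface {n m : ℕ} (a : Fin m → ℤ) (F : Fin m → MvPolynomial (Fin n) ℤ) (d : ℕ) : Prop :=
  ∀ x w w' : Fin n → ℤ,
    (∀ b b' : ℂ, form a F d (fun j => Complex.exp (b * w j + b' * w' j) * (x j : ℂ)) = 0) →
    ∃ p q : ℤ, (p ≠ 0 ∨ q ≠ 0) ∧ ∀ j j', x j ≠ 0 → x j' ≠ 0 →
      p * w j + q * w' j = p * w j' + q * w' j'

/-- `W` is the set of rational points of a closed subset given by some equations `F i = 0` and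
`F i = c (i, i') F i'` -/
def IsLocus {n m : ℕ} (F : Fin m → MvPolynomial (Fin n) ℤ) (W : Set (Fin n → ℚ)) : Prop :=
  ∃ (Z : Finset (Fin m)) (r : Finset (Fin m × Fin m)) (c : Fin m × Fin m → ℚ),
    W = {z | (∀ i ∈ Z, aeval z (F i) = 0) ∧ ∀ p ∈ r, aeval z (F p.1) = c p * aeval z (F p.2)}

/-- the primitive integer vectors `x` with `|x j| ≤ Y` (every rational point of height at most `Y`
is given by two of them) that lie on a Brody hyperbolic `X s`, for some `s` with
`0 < |s i| ≤ Y ^ E` -/
def HyperbolicPoints (n m E d Y : ℕ) (u : Fin m → ℤ) (F : Fin m → MvPolynomial (Fin n) ℤ) :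
    Set (Fin n → ℤ) :=
  {x | Finset.univ.gcd x = 1 ∧ (∀ j, |x j| ≤ (Y : ℤ)) ∧
    ∃ s : Fin m → ℤ, (∀ i, s i ≠ 0 ∧ |s i| ≤ (Y : ℤ) ^ E) ∧
      form (fun i => u i * s i) F d x = 0 ∧ BrodyHyperbolic (fun i => u i * s i) F d ∅}

/-- the primitive integer vectors `x` with `|x j| ≤ Y` that lie on the closed subset `Z` given by the
forms in `G` and on an `X s`, for some `s` with `0 < |s i| ≤ Y ^ E`, such that `Z ∩ X s` is Brody
hyperbolic and `X s` contains no two-dimensional orbit under a torus -/
def SubvarietyPoints (n m E d Y : ℕ) (u : Fin m → ℤ) (F : Fin m → MvPolynomial (Fin n) ℤ)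
    (G : Set (MvPolynomial (Fin n) ℤ)) : Set (Fin n → ℤ) :=
  {x | Finset.univ.gcd x = 1 ∧ (∀ j, |x j| ≤ (Y : ℤ)) ∧ (∀ g ∈ G, aeval x g = 0) ∧
    ∃ s : Fin m → ℤ, (∀ i, s i ≠ 0 ∧ |s i| ≤ (Y : ℤ) ^ E) ∧
      form (fun i => u i * s i) F d x = 0 ∧ NoTorusSurface (fun i => u i * s i) F d ∧
      BrodyHyperbolic (fun i => u i * s i) F d G}

theorem form_mon {R : Type} [CommRing R] {n m : ℕ} (a : Fin m → ℤ) (M : Fin m → Fin n →₀ ℕ)
    (d : ℕ) (x : Fin n → R) : form a (fun i => monomial (M i) 1) d x =
      ∑ i, (a i : R) * (∏ j, x j ^ M i j) ^ d := by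
  unfold form
  refine Finset.sum_congr rfl fun i _ => ?_
  rw [aeval_monomial, map_one, one_mul, Finsupp.prod_fintype _ _ (fun j => pow_zero _)]

/-- For all `n`, `m`, `l`, `E` and `ε > 0` there are `R` and `δ > 0` such that for all `Y ≥ 1`, all
`d` with `R ≤ d ≤ Y ^ δ` and all integers `|u i| ≤ exp (Y ^ δ)`:

* for all forms `F i` of degree `l` with integer coefficients of absolute value at most `Y ^ E` the
  rational points of height at most `Y` of all `X s` lie on at most `Y ^ ε` closed subsets contained
  in `X s` given by equations `F i = 0` and `F i = c (i, i') F i'`;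
* if the `F i` are monomials of degree `l`, all Brody hyperbolic `X s` together have at most `Y ^ ε`
  such points;
* if the `F i` are monomials of degree `l` and `Z` is given by forms of degree at most `e` then at
  most `(e + 1) Y ^ ε` such points of `Z` lie on the `X s` without two-dimensional orbits of tori for
  which `Z ∩ X s` is Brody hyperbolic. -/
theorem result (n m l E : ℕ) (ε : ℝ) (hε : 0 < ε) : ∃ (R : ℕ) (δ : ℝ), 0 < δ ∧
    ∀ (Y d : ℕ) (u : Fin m → ℤ), 1 ≤ Y → R ≤ d → (d : ℝ) ≤ (Y : ℝ) ^ δ →
      (∀ i, ((|u i| : ℤ) : ℝ) ≤ Real.exp ((Y : ℝ) ^ δ)) →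
      (∀ F : Fin m → MvPolynomial (Fin n) ℤ, (∀ i, (F i).IsHomogeneous l) →
        (∀ i t, |coeff t (F i)| ≤ (Y : ℤ) ^ E) →
        ∃ L : Finset (Set (Fin n → ℚ)), (L.card : ℝ) ≤ (Y : ℝ) ^ ε ∧ (∀ W ∈ L, IsLocus F W) ∧
          ∀ (x : Fin n → ℤ) (s : Fin m → ℤ), (∀ j, |x j| ≤ (Y : ℤ)) →
            (∀ i, s i ≠ 0 ∧ |s i| ≤ (Y : ℤ) ^ E) → form (fun i => u i * s i) F d x = 0 →
            ∃ W ∈ L, (fun j => (x j : ℚ)) ∈ W ∧
              ∀ z ∈ W, form (fun i => u i * s i) F d z = 0) ∧
      ∀ M : Fin m → Fin n →₀ ℕ, (∀ i, (M i).degree = l) →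
        ((HyperbolicPoints n m E d Y u (fun i => monomial (M i) 1)).Finite ∧
          ((HyperbolicPoints n m E d Y u (fun i => monomial (M i) 1)).ncard : ℝ) ≤
            (Y : ℝ) ^ ε) ∧
        ∀ (e : ℕ) (G : Set (MvPolynomial (Fin n) ℤ)), (∀ g ∈ G, ∃ k ≤ e, g.IsHomogeneous k) →
          (SubvarietyPoints n m E d Y u (fun i => monomial (M i) 1) G).Finite ∧
            ((SubvarietyPoints n m E d Y u (fun i => monomial (M i) 1) G).ncard : ℝ) ≤
              ((e : ℝ) + 1) * (Y : ℝ) ^ ε := by
  obtain ⟨R, δ, hδ, H⟩ := Pool.Agent.T6.H20.MN.cover n m l E ε hε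
  obtain ⟨R', δ', hδ', H'⟩ := Pool.Agent.T6.H20.MN.count n m l E ε hε
  have hmono : ∀ {Y : ℕ} {a : ℝ}, 1 ≤ Y → min δ δ' ≤ a → (Y : ℝ) ^ (min δ δ') ≤ (Y : ℝ) ^ a :=
    fun hY ha => Real.rpow_le_rpow_of_exponent_le (by exact_mod_cast hY) ha
  refine ⟨max R R', min δ δ', lt_min hδ hδ', fun Y d u hY hd hdY hu => ⟨?_, ?_⟩⟩
  · intro F hF hc
    obtain ⟨L, hL1, hL2, hL3⟩ := H Y d u hY ((le_max_left _ _).trans hd)
      (hdY.trans (hmono hY (min_le_left _ _)))
      (fun i => (hu i).trans (Real.exp_le_exp.2 (hmono hY (min_le_left _ _)))) F hF hc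
    refine ⟨L, hL1, fun W hW => ?_, fun x s hx hs h0 => ?_⟩
    · obtain ⟨Z, r, c, h⟩ := hL2 W hW
      exact ⟨Z, r, c, h⟩
    · exact hL3 x s hx hs (by
        unfold form at h0
        simpa using h0)
  · intro M hM
    have hsub : ∀ G : Set (MvPolynomial (Fin n) ℤ),
        SubvarietyPoints n m E d Y u (fun i => monomial (M i) 1) G ⊆
        Pool.Agent.T6.H20.MN.Pts n m E d Y u (fun i j => M i j) G := by
      rintro G x ⟨h1, h2, h3, s, h4, h5, h6, h7⟩
      refine ⟨h1, h2, h3, s, h4, ?_, ?_, ?_⟩
      · rw [form_mon] at h5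
        unfold Pool.Agent.T6.H20.MN.mon
        simpa using h5
      · intro y w w' hw
        exact h6 y w w' fun b b' => by
          rw [form_mon]
          exact hw b b'
      · intro f hf1 hf2 hf3 hf4
        exact h7 f hf1 hf2 (fun z => by
          rw [form_mon]
          exact hf3 z) hf4
    have hcount : ∀ (e : ℕ) (G : Set (MvPolynomial (Fin n) ℤ)),
        (∀ g ∈ G, ∃ k ≤ e, g.IsHomogeneous k) →
          (SubvarietyPoints n m E d Y u (fun i => monomial (M i) 1) G).Finite ∧
            ((SubvarietyPoints n m E d Y u (fun i => monomial (M i) 1) G).ncard : ℝ) ≤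
              ((e : ℝ) + 1) * (Y : ℝ) ^ ε := by
      intro e G hG
      obtain ⟨h1, h2⟩ := H' Y d u hY ((le_max_right _ _).trans hd)
        (hdY.trans (hmono hY (min_le_right _ _)))
        (fun i => (hu i).trans (Real.exp_le_exp.2 (hmono hY (min_le_right _ _))))
        (fun i j => M i j) (fun i => by
          rw [← hM i, Finsupp.degree_eq_sum]) e G hG
      refine ⟨h1.subset (hsub G), le_trans ?_ h2⟩
      exact_mod_cast Set.ncard_le_ncard (hsub G) h1
    refine ⟨?_, hcount⟩
    have hsub0 : HyperbolicPoints n m E d Y u (fun i => monomial (M i) 1) ⊆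
        SubvarietyPoints n m E d Y u (fun i => monomial (M i) 1) ∅ := by
      rintro x ⟨h1, h2, s, h3, h4, h5⟩
      refine ⟨h1, h2, fun g hg => absurd hg (Set.notMem_empty g), s, h3, h4, ?_, h5⟩
      intro y w w' hw
      refine Pool.Agent.T6.H20.MN.noSurf_of_hyp (a := fun i => u i * s i)
        (M := fun i j => M i j) (d := d) ?_ y w w' fun b b' => ?_
      · intro f hf1 hf2 hf3 hf4
        exact h5 f hf1 hf2 (fun z => by
          rw [form_mon]
          exact hf3 z) hf4
      · have := hw b b'
        rw [form_mon] at this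
        exact this
    obtain ⟨h1, h2⟩ := hcount 0 ∅ fun g hg => absurd hg (Set.notMem_empty g)
    refine ⟨h1.subset hsub0, ?_⟩
    have h3 : ((HyperbolicPoints n m E d Y u (fun i => monomial (M i) 1)).ncard : ℝ) ≤
        ((SubvarietyPoints n m E d Y u (fun i => monomial (M i) 1) ∅).ncard : ℝ) := by
      exact_mod_cast Set.ncard_le_ncard hsub0 h1
    simpa using h3.trans h2

end Pool.Agent.Results.MP_627a61_nt.PowersOfMonomials
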