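import Pool.Agent.T6.H35.RS.Conv

set_option autoImplicit false

/-!
# Automata and regular sequences on hyperbolic varieties

Let `X` be the closed subset of projective `n`-space over a field `k` of characteristic `0` given by
forms of degree at most `d`, and suppose that `X` contains no rational curve over the algebraic
closure of `k`.  This holds if `k` is a number field and the space `X_σ` of the complex points of `X`
is Brody (equivalently, Kobayashi) hyperbolic for one embedding `σ` of `k` in `ℂ` (1).  Let `K ⊇ k`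
be ANY field, `S` a monoid, `ρ : S → M_r(K)` a representation by ARBITRARY (possibly singular)
matrices, `M` a matrix with `n + 1` rows, `v` a vector, and suppose that for all elements `z` of a
rational subset `𝓛` of `S` the vector `M ρ(z) v` is zero or gives a point of `X`.

(2) The points are finite in number.  More precisely, there is a finite subset `𝓕` of `𝓛`, which
depends only on `𝓛`, `n`, `d` and `r` and whose size is bounded in terms of `n`, `d`, `r` and the size
of an automaton for `𝓛`, such that every point is given by an element of `𝓕`, for ALL `k`, `X`, `K`,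
`ρ`, `M` and `v`.  (If `S` is the free monoid, the coordinates are rational series in noncommuting
variables, that is, weighted automata.)

(3) If `𝓛` is a regular language of words in finitely many letters, and all the vectors are nonzero,
then for each point the words in `𝓛` which give it form a regular language, and the number of its
left quotients (the number of states of its minimal automaton) is bounded in terms of `𝓛`, `n`, `d`
and `r`.

(4) Let `b ≥ 2`.  Let `x(0), x(1), …` be a `b`-regular sequence (Allouche, Shallit) of vectors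
which are zero or give points of `X`: the vector space spanned by its `b`-kernel has finite dimension
`≤ r`.  Then all the points are given by the `x(m)` with `m ≤ N`, where `N` depends only on `b`, `n`,
`d` and `r`.  If no `x(m)` is zero, then the sequence of points is `b`-automatic: its `b`-kernel has
at most `N` elements.

(5) Let `k` be a number field and `b ≥ 2`.  If `X` contains a rational curve, then there is a
`b`-regular sequence over a number field with infinitely many points, all on `X`.  So the absence of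
rational curves is equivalent to the finiteness for all `b`-regular sequences.
-/

namespace Pool.Agent.Results.MP_627a61_nt.RationalSeries

open Pool.Agent.H458.Sp Pool.Agent.TH717.GO Pool.Agent.T6.H35.RS
open scoped LinearAlgebra.Projectivization

/-- the forms in `FF` have degree at most `d`, and the closed set `X` given by them contains no
rational curve over the algebraic closure -/
def Curveless {k : Type} [Field k] {n : ℕ} (d : ℕ) (FF : Set (MvPolynomial (Fin (n + 1)) k)) :
    Prop :=
  (∀ F ∈ FF, ∃ e ≤ d, F.IsHomogeneous e) ∧ NoRatBar FF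

/-- the vector `a` is zero or gives a point of the closed set `X` given by `FF` -/
def OnX {k K : Type} [Field k] [Field K] [Algebra k K] {n : ℕ}
    (FF : Set (MvPolynomial (Fin (n + 1)) k)) (a : Fin (n + 1) → K) : Prop :=
  ∀ F ∈ FF, MvPolynomial.aeval a F = 0

/-- the sequence `x` is `b`-regular of rank at most `r` -/
def Regular {K : Type} [Field K] {n : ℕ} (b r : ℕ) (x : ℕ → Fin (n + 1) → K) : Prop :=
  Module.Finite K (Submodule.span K (kerSeq b x)) ∧
    Module.finrank K (Submodule.span K (kerSeq b x)) ≤ r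

theorem result :
    (∀ (k : Type) [Field k] [NumberField k] (σ : k →+* ℂ) (n d : ℕ)
      (FF : Set (MvPolynomial (Fin (n + 1)) k)), (∀ F ∈ FF, ∃ e ≤ d, F.IsHomogeneous e) →
      BrodyHyperbolic ((MvPolynomial.map σ) '' FF) → Curveless d FF) ∧
    (∀ n d r v e : ℕ, ∃ B : ℕ, ∀ (S : Type) [Monoid S] (𝓛 : Set S), Accepted v e 𝓛 →
      ∃ 𝓕 ⊆ 𝓛, 𝓕.encard ≤ (B : ℕ∞) ∧
        ∀ (k : Type) [Field k] [CharZero k] (FF : Set (MvPolynomial (Fin (n + 1)) k)),
          Curveless d FF → ∀ (K : Type) [Field K] [Algebra k K]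
            (M : Matrix (Fin (n + 1)) (Fin r) K) (ρ : S →* Matrix (Fin r) (Fin r) K)
            (w : Fin r → K), (∀ z ∈ 𝓛, OnX FF (M.mulVec ((ρ z).mulVec w))) →
            pts M ρ w 𝓛 = pts M ρ w 𝓕) ∧
    (∀ (n d r : ℕ) (A : Type) [Finite A] (𝓛 : Language A), 𝓛.IsRegular → ∃ N : ℕ,
      ∀ (k : Type) [Field k] [CharZero k] (FF : Set (MvPolynomial (Fin (n + 1)) k)),
        Curveless d FF → ∀ (K : Type) [Field K] [Algebra k K]
          (M : Matrix (Fin (n + 1)) (Fin r) K) (ρ : A → Matrix (Fin r) (Fin r) K)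
          (w : Fin r → K), (∀ l ∈ 𝓛, wvec M ρ w l ≠ 0 ∧ OnX FF (wvec M ρ w l)) →
          ∀ P : ℙ K (Fin (n + 1) → K), (fibre M ρ w 𝓛 P).IsRegular ∧
            (Set.range (fibre M ρ w 𝓛 P).leftQuotient).encard ≤ (N : ℕ∞)) ∧
    (∀ n d r b : ℕ, 2 ≤ b → ∃ N : ℕ,
      ∀ (k : Type) [Field k] [CharZero k] (FF : Set (MvPolynomial (Fin (n + 1)) k)),
        Curveless d FF → ∀ (K : Type) [Field K] [Algebra k K] (x : ℕ → Fin (n + 1) → K),
          Regular b r x → (∀ m, OnX FF (x m)) →
          (seqPts x = {P | ∃ m ≤ N, ∃ h : x m ≠ 0, P = Projectivization.mk K (x m) h}) ∧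
          ∀ h0 : ∀ m, x m ≠ 0, (kerSeq b (ptSeq x h0)).encard ≤ (N : ℕ∞)) ∧
    (∀ (k : Type) [Field k] [NumberField k] (n b : ℕ) (FF : Finset (MvPolynomial (Fin (n + 1)) k)),
      2 ≤ b → (∀ F ∈ FF, ∃ e, F.IsHomogeneous e) →
      (NoRatBar (FF : Set (MvPolynomial (Fin (n + 1)) k)) ↔
        ∀ (K : Type) [Field K] [NumberField K] [Algebra k K] (r : ℕ) (x : ℕ → Fin (n + 1) → K),
          Regular b r x → (∀ m, OnX (FF : Set (MvPolynomial (Fin (n + 1)) k)) (x m)) →
          (seqPts x).Finite)) := by
  have h4 : ∀ n d r b : ℕ, 2 ≤ b → ∃ N : ℕ,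
      ∀ (k : Type) [Field k] [CharZero k] (FF : Set (MvPolynomial (Fin (n + 1)) k)),
        Curveless d FF → ∀ (K : Type) [Field K] [Algebra k K] (x : ℕ → Fin (n + 1) → K),
          Regular b r x → (∀ m, OnX FF (x m)) →
          (seqPts x = {P | ∃ m ≤ N, ∃ h : x m ≠ 0, P = Projectivization.mk K (x m) h}) ∧
          ∀ h0 : ∀ m, x m ≠ 0, (kerSeq b (ptSeq x h0)).encard ≤ (N : ℕ∞) := by
    intro n d r b hb
    obtain ⟨N, hN⟩ := regular_seq n d r b hb
    refine ⟨N, ?_⟩
    intro k _ _ FF hFF K _ _ x hx hX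
    obtain ⟨h1, h2⟩ := hN k FF hFF.1 hFF.2 K x hx.1 hx.2 hX
    refine ⟨?_, h2⟩
    apply Set.Subset.antisymm
    · rintro P ⟨m, hm, rfl⟩
      obtain ⟨m', hm', h3, h5⟩ := h1 m hm
      exact ⟨m', hm', h3, Pool.Agent.TH138.LG.mk_eq_of_cross hm h3 h5⟩
    · rintro P ⟨m, -, hm, rfl⟩
      exact ⟨m, hm, rfl⟩
  refine ⟨?_, ?_, ?_, h4, ?_⟩
  · intro k _ _ σ n d FF hhom hyp
    exact ⟨hhom, noRatBar_of_hyperbolic σ FF (fun F hF => by
      obtain ⟨e, -, he⟩ := hhom F hF
      exact ⟨e, he⟩) hyp⟩
  · intro n d r v e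
    obtain ⟨B, hB⟩ := uniform_aut n d r v e
    refine ⟨B, ?_⟩
    intro S _ 𝓛 h𝓛
    obtain ⟨𝓕, hF1, hF2, hF3⟩ := hB S 𝓛 h𝓛
    refine ⟨𝓕, hF1, hF2, ?_⟩
    intro k _ _ FF hFF K _ _ M ρ w hX
    exact pts_eq M ρ w hF1 hX (hF3 k FF hFF.1 hFF.2 K ρ)
  · intro n d r A _ 𝓛 h𝓛
    obtain ⟨N, hN⟩ := fibres n d r h𝓛
    refine ⟨N, ?_⟩
    intro k _ _ FF hFF K _ _ M ρ w hX P
    exact hN k FF hFF.1 hFF.2 K M ρ w hX P
  · intro k _ _ n b FF hb hhom
    constructor
    · intro hno K _ _ _ r x hx hX
      have hd : ∀ F ∈ (FF : Set (MvPolynomial (Fin (n + 1)) k)),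
          ∃ e ≤ FF.sup MvPolynomial.totalDegree, F.IsHomogeneous e := by
        intro F hF
        obtain ⟨e, he⟩ := hhom F hF
        by_cases hF0 : F = 0
        · subst hF0
          exact ⟨0, Nat.zero_le _, MvPolynomial.isHomogeneous_zero _ _ _⟩
        · refine ⟨e, ?_, he⟩
          rw [← he.totalDegree hF0]
          exact Finset.le_sup (f := MvPolynomial.totalDegree) hF
      obtain ⟨N, hN⟩ := h4 n _ r b hb
      rw [(hN k _ ⟨hd, hno⟩ K x hx hX).1]
      classical
      have h1 : (Set.Iic N).Finite := Set.finite_Iic N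
      refine (h1.image (fun m => if h : x m ≠ 0 then Projectivization.mk K (x m) h else
        Projectivization.mk K (fun _ => 1) (fun h => one_ne_zero (congrFun h 0)))).subset ?_
      rintro P ⟨m, hm, h, rfl⟩
      exact ⟨m, hm, by simp [dif_pos h]⟩
    · intro hfin
      by_contra hno
      obtain ⟨K, iK, iN, iA, x, h1, h2, h3⟩ := conv_regular FF b hb hno
      exact h3 (hfin K _ x ⟨h1, le_rfl⟩ (fun m => (h2 m).2))

end Pool.Agent.Results.MP_627a61_nt.RationalSeries
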